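import Pool.Agent.H82.EOL.Stmts

set_option autoImplicit false
set_option linter.unusedSectionVars false

/-!
Row PL of board eol (helper12).
-/

namespace Pool.Agent.H12.EOL

open Finset Pool.Agent.H82.SVL Pool.Agent.H82.EOL

theorem ind_nonneg (p : Prop) : 0 ≤ ind p := by
  unfold ind
  split_ifs <;> norm_num

theorem ind_le_one (p : Prop) : ind p ≤ 1 := by
  unfold ind
  split_ifs <;> norm_num

theorem ind_of_not {p : Prop} (h : ¬ p) : ind p = 0 := by
  unfold ind
  rw [if_neg h]

theorem ind_of {p : Prop} (h : p) : ind p = 1 := by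
  unfold ind
  rw [if_pos h]

theorem card_sdiff_insert_real {D : Type} [DecidableEq D] (A E : Finset D) (a : D)
    (ha : a ∉ E) : ((A \ insert a E).card : ℝ) = ((A \ E).card : ℝ) - ind (a ∈ A) := by
  rw [Finset.sdiff_insert]
  by_cases h : a ∈ A
  · rw [ind_of h]
    have h1 : a ∈ A \ E := mem_sdiff.mpr ⟨h, ha⟩
    have h2 := Finset.card_erase_add_one h1
    have h3 : (((A \ E).erase a).card : ℝ) + 1 = ((A \ E).card : ℝ) := by exact_mod_cast h2
    linarith
  · rw [ind_of_not h]
    have h1 : a ∉ A \ E := fun h2 => h (mem_sdiff.mp h2).1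
    rw [Finset.erase_eq_of_notMem h1]
    ring

theorem pl_thm (h1 : S_CE) : S_PL := by
  intro D X R _ _ _ _ srt h I q b K c M hyp F
  classical
  induction F with
  | zero =>
    intro E π _
    refine ⟨Tree.leaf I.x0, Tree.DLe_leaf _ _, ?_⟩
    have h2 : (0 : ℝ) ≤ c * ∑ p ∈ Tn h E π, ((QA h I p \ E).card : ℝ) :=
      mul_nonneg (Nat.cast_nonneg _) (sum_nonneg (fun p _ => Nat.cast_nonneg _))
    simpa using h2
  | succ F ih =>
    intro E π hEF
    have hnn : (0 : ℝ) ≤ c * ∑ p ∈ Tn h E π, ((QA h I p \ E).card : ℝ) :=
      mul_nonneg (Nat.cast_nonneg _) (sum_nonneg (fun p _ => Nat.cast_nonneg _))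
    by_cases hne : (Tn h E π).Nonempty
    swap
    · have h2 : Tn h E π = ∅ := not_nonempty_iff_eq_empty.mp hne
      refine ⟨Tree.leaf I.x0, Tree.DLe_leaf _ _, ?_⟩
      rw [h2]
      simp
    by_cases hlight : ∀ a, a ∉ E →
        (c : ℝ) * ∑ p ∈ Tn h E π, ind (a ∈ QA h I p) ≤ (Tn h E π).card
    · obtain ⟨x, hx⟩ := h1 D X R srt h I q b K c M E π hyp (by omega) hne hlight
      refine ⟨Tree.leaf x, Tree.DLe_leaf _ _, ?_⟩
      have h2 : ∑ p ∈ Tn h E π,
          ind (Tree.run p.2.1 (I.chk (Tree.run p.2.1 (Tree.leaf x : Tree D X))) ≠ true) = 0 := by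
        apply sum_eq_zero
        intro p hp
        apply ind_of_not
        intro h3
        exact h3 (hx p.2 (mem_filter.mp hp).2)
      rw [h2, mul_zero]
      exact hnn
    · push Not at hlight
      obtain ⟨a, haE, hheavy⟩ := hlight
      have hcard : (insert a E).card + F ≤ M := by
        rw [card_insert_of_notMem haE]
        omega
      choose T hT1 hT2 using fun σ : Om srt => ih (insert a E) σ hcard
      let k : D → Tree D X := fun v =>
        if h : ∃ σ ∈ C E π, σ.1 a = v then T (Classical.choose h) else Tree.leaf I.x0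
      refine ⟨Tree.query a k, ?_, ?_⟩
      · intro v
        by_cases hv : ∃ σ ∈ C E π, σ.1 a = v
        · have h2 : k v = T (Classical.choose hv) := dif_pos hv
          rw [h2]
          exact hT1 _
        · have h2 : k v = Tree.leaf I.x0 := dif_neg hv
          rw [h2]
          exact Tree.DLe_leaf _ _
      · have hmain : (F : ℝ) * ∑ p ∈ Tn h E π,
            ind (Tree.run p.2.1 (I.chk (Tree.run p.2.1 (Tree.query a k))) ≠ true)
            ≤ c * ∑ p ∈ Tn h E π, ((QA h I p \ insert a E).card : ℝ) := by
          rw [← sum_fiberwise (Tn h E π) (fun p => p.2.1 a)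
              (fun p => ind (Tree.run p.2.1 (I.chk (Tree.run p.2.1 (Tree.query a k))) ≠ true)),
            ← sum_fiberwise (Tn h E π) (fun p => p.2.1 a)
              (fun p => ((QA h I p \ insert a E).card : ℝ)), mul_sum, mul_sum]
          apply sum_le_sum
          intro v _
          by_cases hv : ∃ σ ∈ C E π, σ.1 a = v
          · have h2 : k v = T (Classical.choose hv) := dif_pos hv
            obtain ⟨hσ1, hσ2⟩ := Classical.choose_spec hv
            set σ := Classical.choose hv with hσ
            have h3 : (Tn h E π).filter (fun p => p.2.1 a = v) = Tn h (insert a E) σ := by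
              ext p
              simp only [Tn, mem_filter, mem_C_insert, C_eq_of_mem hσ1]
              rw [hσ2]
              tauto
            rw [h3]
            have h4 : ∑ p ∈ Tn h (insert a E) σ,
                ind (Tree.run p.2.1 (I.chk (Tree.run p.2.1 (Tree.query a k))) ≠ true)
                = ∑ p ∈ Tn h (insert a E) σ,
                ind (Tree.run p.2.1 (I.chk (Tree.run p.2.1 (T σ))) ≠ true) := by
              apply sum_congr rfl
              intro p hp
              have h5 : p.2.1 a = v := by
                rw [← h3] at hp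
                exact (mem_filter.mp hp).2
              rw [Tree.run_query, h5, h2]
            rw [h4]
            exact hT2 σ
          · have h3 : (Tn h E π).filter (fun p => p.2.1 a = v) = ∅ := by
              apply filter_eq_empty_iff.mpr
              intro p hp h5
              exact hv ⟨p.2, (mem_filter.mp hp).2, h5⟩
            rw [h3]
            simp
        have h6 : ∑ p ∈ Tn h E π, ((QA h I p \ insert a E).card : ℝ)
            = ∑ p ∈ Tn h E π, ((QA h I p \ E).card : ℝ)
              - ∑ p ∈ Tn h E π, ind (a ∈ QA h I p) := by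
          rw [← sum_sub_distrib]
          exact sum_congr rfl (fun p _ => card_sdiff_insert_real _ _ _ haE)
        have h7 : ∑ p ∈ Tn h E π,
            ind (Tree.run p.2.1 (I.chk (Tree.run p.2.1 (Tree.query a k))) ≠ true)
            ≤ (Tn h E π).card := by
          have h8 := sum_le_card_nsmul (Tn h E π)
            (fun p => ind (Tree.run p.2.1 (I.chk (Tree.run p.2.1 (Tree.query a k))) ≠ true)) 1
            (fun p _ => ind_le_one _)
          simpa using h8
        rw [h6, mul_sub] at hmain
        push_cast
        rw [add_mul, one_mul]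
        linarith

end Pool.Agent.H12.EOL
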